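import Mathlib
import Pool.Agent.H24.FD.P5

/-!
# MP_1f2761, k = 2: row CEL
-/

set_option autoImplicit false

open Finset Pool.K2 Pool.FD MeasureTheory

namespace Pool.Agent.H51.FD

open Pool.Agent.H24.FD

theorem pF_nonneg' (ε : ℝ) {l : ℕ} (s : Fin l → Fin 3) : 0 ≤ pF ε s := by
  classical
  unfold pF
  split_ifs <;> positivity

theorem atyp_nonneg (ε : ℝ) (l : ℕ) : 0 ≤ atyp ε l := by
  classical
  unfold atyp
  refine Finset.sum_nonneg fun s _ => ?_
  split_ifs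
  · exact le_refl 0
  · exact pF_nonneg' ε s

theorem cel (hSFV : SFVStmt) (hSPL : SPLStmt) (hEQB : EQBStmt) (hONN : ONNStmt) : CELStmt := by
  classical
  intro q m g t₁ l k T Jt wm hP hk hJt hW b hb1 hb2 K hK1 hK2 B hB ρ hρ f A hf x
  have hom : ∀ J z, 0 ≤ omW q m g t₁ wm (l * k) 3200 Jt J z :=
    hONN q m g t₁ (l * k) 3200 Jt kk wm hP.hq hP.hg hP.hmk
  obtain ⟨e1, e2, e3, -, -⟩ := hEQB q l k eb (omW q m g t₁ wm (l * k) 3200 Jt) hP.marg hom
  obtain ⟨s1, -, -, -⟩ := hSPL q l k eb (omW q m g t₁ wm (l * k) 3200 Jt) hP.marg hom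
  have hat : 0 ≤ atyp eb l := atyp_nonneg eb l
  -- the indicator
  set I : ℕ × ℕ → ℝ := fun y =>
    if (ix K (y.1 * yy q (Jt - l * k * b)), ix K (y.2 * yy q (Jt - l * k * b))) ∈ B then 1 else 0
    with hI
  have hI0 : ∀ y, 0 ≤ I y := by
    intro y
    simp only [hI]
    split_ifs
    · exact zero_le_one
    · exact le_refl 0
  have hI1 : ∀ y, I y ≤ 1 := by
    intro y
    simp only [hI]
    split_ifs
    · exact le_refl 1
    · exact zero_le_one
  have h1 : EQ q l k eb (omW q m g t₁ wm (l * k) 3200 Jt) Jt b f x ≤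
      EQ q l k eb (omW q m g t₁ wm (l * k) 3200 Jt) Jt b
        (fun y => 1 * I y + (fun _ : ℕ × ℕ => A + k * atyp eb l) y) x := by
    refine e2 b Jt f _ x fun y => ?_
    have := hf y
    simp only [hI]
    linarith
  have h2 := e3 b Jt I (fun _ : ℕ × ℕ => A + k * atyp eb l) 1 x
  have h3 := e1 b Jt (A + k * atyp eb l) x
  have h4 := (s1 b Jt I x hI0 hI1).2
  have h5 := hSFV q m g t₁ l k T Jt wm hP hk hJt hW b hb1 hb2 K hK1 hK2 B hB x
  have hC1 : 0 ≤ C1 1100 := by unfold C1; positivity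
  have h6 : 7 * C1 1100 * ((B.card : ℝ) / (K : ℝ) ^ 2) ≤ 7 * C1 1100 * ρ :=
    mul_le_mul_of_nonneg_left hρ (by positivity)
  have h7 : Real.sqrt ((B.card : ℝ) / (K : ℝ) ^ 2) ≤ Real.sqrt ρ := Real.sqrt_le_sqrt hρ
  have h8 : ((b : ℝ) + 1) * (k * atyp eb l) ≤ (3200 + T + 1) * (k * atyp eb l) := by
    refine mul_le_mul_of_nonneg_right ?_ (by positivity)
    have : (b : ℝ) ≤ ((3200 + T : ℕ) : ℝ) := by exact_mod_cast hb2.le
    push_cast at this
    linarith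
  rw [h2, h3] at h1
  unfold er
  have h9 : (b : ℝ) * k * atyp eb l + k * atyp eb l = ((b : ℝ) + 1) * (k * atyp eb l) := by ring
  have h5' : ET q l k eb (omW q m g t₁ wm (l * k) 3200 Jt) Jt b I x ≤
    (2 * NI l k 1100) ^ (3200 + T + 1) * s0 q m t₁ l 1100 +
      7 * C1 1100 * ((B.card : ℝ) / (K : ℝ) ^ 2) + 13 * Real.sqrt ((B.card : ℝ) / (K : ℝ) ^ 2) := h5
  linarith

end Pool.Agent.H51.FD
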