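import Mathlib
import Pool.Agent.H24.FD.P3

/-! # MP_1f2761, k = 2: row COP, the cover of the exceptional set of partial blocks -/

set_option autoImplicit false

open Finset Pool.K2 Pool.FD MeasureTheory

namespace Pool.Agent.H24.FD

/-- the index of the cell of `x` and its fractional part -/
theorem ix_cell {K : ℕ} (hK : 0 < K) (x : ℝ) : ix K x < K ∧ (ix K x : ℝ) / K ≤ Int.fract x ∧
    Int.fract x ≤ (ix K x + 1) / K := by
  have hK' : (0 : ℝ) < K := by exact_mod_cast hK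
  have hKz : (0 : ℤ) < K := by exact_mod_cast hK
  have h1 : ⌊(K : ℝ) * x⌋ = (K : ℤ) * ⌊x⌋ + ⌊(K : ℝ) * Int.fract x⌋ := by
    have h2 : (K : ℝ) * x = ((K : ℤ) * ⌊x⌋ : ℤ) + (K : ℝ) * Int.fract x := by
      push_cast
      rw [← mul_add, Int.floor_add_fract]
    rw [h2, Int.floor_intCast_add]
  have h3 : 0 ≤ ⌊(K : ℝ) * Int.fract x⌋ := by
    apply Int.floor_nonneg.2
    exact mul_nonneg hK'.le (Int.fract_nonneg x)
  have h4 : ⌊(K : ℝ) * Int.fract x⌋ < K := by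
    rw [Int.floor_lt]
    have := Int.fract_lt_one x
    push_cast
    nlinarith
  have h5 : ⌊(K : ℝ) * x⌋ % (K : ℤ) = ⌊(K : ℝ) * Int.fract x⌋ := by
    rw [h1, add_comm, Int.add_mul_emod_self_left, Int.emod_eq_of_lt h3 h4]
  have h6 : ((ix K x : ℕ) : ℤ) = ⌊(K : ℝ) * Int.fract x⌋ := by
    unfold ix fl
    rw [h5]
    exact Int.toNat_of_nonneg h3
  have h7 : ((ix K x : ℕ) : ℝ) = (⌊(K : ℝ) * Int.fract x⌋ : ℤ) := by
    exact_mod_cast h6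
  refine ⟨by omega, ?_, ?_⟩
  · rw [div_le_iff₀ hK', h7, mul_comm]
    exact Int.floor_le _
  · rw [le_div_iff₀ hK', h7, mul_comm]
    exact (Int.lt_floor_add_one _).le

/-- cells which contain a point with a large value -/
theorem cover_cells {K : ℕ} (hK : 0 < K) (f : ℝ → ℝ → ℝ)
    (hper : ∀ s₁ s₂, f (Int.fract s₁) (Int.fract s₂) = f s₁ s₂) (B θ : ℝ) (hθ : 0 < θ)
    (hB : ∀ x : ℕ × ℕ → ℝ × ℝ, (∀ s ∈ range K ×ˢ range K, (s.1 : ℝ) / K ≤ (x s).1 ∧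
      (x s).1 ≤ (s.1 + 1) / K ∧ (s.2 : ℝ) / K ≤ (x s).2 ∧ (x s).2 ≤ (s.2 + 1) / K) →
      ∑ s ∈ range K ×ˢ range K, f (x s).1 (x s).2 ^ 2 ≤ B) :
    ∃ E : Finset (ℕ × ℕ), E ⊆ range K ×ˢ range K ∧ (E.card : ℝ) * θ ^ 2 ≤ B ∧
      ∀ s₁ s₂ : ℝ, θ < f s₁ s₂ → (ix K s₁, ix K s₂) ∈ E := by
  classical
  have hK' : (0 : ℝ) < K := by exact_mod_cast hK
  let Q : ℕ × ℕ → Prop := fun s => ∃ s₁ s₂ : ℝ, ix K s₁ = s.1 ∧ ix K s₂ = s.2 ∧ θ < f s₁ s₂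
  have hx : ∀ s : ℕ × ℕ, ∃ x : ℝ × ℝ, (s ∈ range K ×ˢ range K → (s.1 : ℝ) / K ≤ x.1 ∧
      x.1 ≤ (s.1 + 1) / K ∧ (s.2 : ℝ) / K ≤ x.2 ∧ x.2 ≤ (s.2 + 1) / K) ∧ (Q s → θ < f x.1 x.2) := by
    intro s
    by_cases hs : Q s
    · obtain ⟨s₁, s₂, h1, h2, h3⟩ := hs
      refine ⟨(Int.fract s₁, Int.fract s₂), fun _ => ?_, fun _ => ?_⟩
      · obtain ⟨_, a2, a3⟩ := ix_cell hK s₁
        obtain ⟨_, b2, b3⟩ := ix_cell hK s₂
        rw [h1] at a2 a3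
        rw [h2] at b2 b3
        exact ⟨a2, a3, b2, b3⟩
      · show θ < f (Int.fract s₁) (Int.fract s₂)
        rw [hper]
        exact h3
    · refine ⟨((s.1 : ℝ) / K, (s.2 : ℝ) / K), fun _ => ?_, fun h => absurd h hs⟩
      refine ⟨le_rfl, ?_, le_rfl, ?_⟩
      · show (s.1 : ℝ) / K ≤ (s.1 + 1) / K
        gcongr
        linarith
      · show (s.2 : ℝ) / K ≤ (s.2 + 1) / K
        gcongr
        linarith
  choose x hx1 hx2 using hx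
  refine ⟨(range K ×ˢ range K).filter Q, filter_subset _ _, ?_, ?_⟩
  · have h1 := hB x fun s hs => hx1 s hs
    have h2 : ∑ s ∈ (range K ×ˢ range K).filter Q, θ ^ 2 ≤
        ∑ s ∈ (range K ×ˢ range K).filter Q, f (x s).1 (x s).2 ^ 2 := by
      apply sum_le_sum
      intro s hs
      have h3 := hx2 s (mem_filter.1 hs).2
      exact pow_le_pow_left₀ hθ.le h3.le 2
    have h4 : ∑ s ∈ (range K ×ˢ range K).filter Q, f (x s).1 (x s).2 ^ 2 ≤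
        ∑ s ∈ range K ×ˢ range K, f (x s).1 (x s).2 ^ 2 := by
      apply sum_le_sum_of_subset_of_nonneg (filter_subset _ _)
      intro s _ _
      positivity
    rw [sum_const, nsmul_eq_mul] at h2
    linarith
  · intro s₁ s₂ hs
    rw [mem_filter, mem_product, mem_range, mem_range]
    exact ⟨⟨(ix_cell hK s₁).1, (ix_cell hK s₂).1⟩, s₁, s₂, rfl, rfl, hs⟩

theorem ex_int (n : ℤ) : ex n = 1 := by
  unfold ex
  have : (2 : ℂ) * Real.pi * ((n : ℝ) : ℂ) * Complex.I = n * (2 * Real.pi * Complex.I) := by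
    push_cast
    ring
  rw [this]
  exact Complex.exp_int_mul_two_pi_mul_I n

theorem ex_add (a b : ℝ) : ex (a + b) = ex a * ex b := by
  unfold ex
  rw [← Complex.exp_add]
  congr 1
  push_cast
  ring

/-- the shells are periodic -/
theorem Rsh_fract (q i r : ℕ) (p : ℕ → ℕ → ℝ) (P : ℕ) (Om : ℕ → ℕ → ℝ) (y s₁ s₂ : ℝ) :
    Rsh q i r p P Om y (Int.fract s₁) (Int.fract s₂) = Rsh q i r p P Om y s₁ s₂ := by
  unfold Rsh
  apply sum_congr rfl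
  intro m _
  congr 1
  have h : (m.1 : ℝ) * s₁ + m.2 * s₂ = (m.1 * Int.fract s₁ + m.2 * Int.fract s₂) +
      ((m.1 * ⌊s₁⌋ + m.2 * ⌊s₂⌋ : ℤ) : ℝ) := by
    push_cast
    have e1 := Int.floor_add_fract s₁
    have e2 := Int.floor_add_fract s₂
    linear_combination (-(m.1 : ℝ)) * e1 + (-(m.2 : ℝ)) * e2
  rw [h, ex_add (m.1 * Int.fract s₁ + m.2 * Int.fract s₂), ex_int, mul_one]

theorem cop (hRSH : RSHStmt) : COPStmt := by
  intro q m g t₁ l k J wm hpar hJ hgood u hu i hi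
  have hq : 2 ≤ q := hpar.hq
  have hq0 : (0 : ℝ) < q := by exact_mod_cast (by omega : 0 < q)
  have hq1 : (1 : ℝ) ≤ q := by exact_mod_cast (by omega : 1 ≤ q)
  have hK : 0 < q ^ i := by positivity
  have hKr : (((q ^ i : ℕ) : ℝ)) = (q : ℝ) ^ (i : ℝ) := by
    push_cast
    rw [Real.rpow_natCast]
  have hg := hgood u hu i hi
  obtain ⟨E, hE1, hE2, hE3⟩ := cover_cells hK (fun s₁ s₂ => ShP q m g t₁ l k wm J u i s₁ s₂)
    (fun s₁ s₂ => by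
      show ‖_‖ = ‖_‖
      rw [Rsh_fract]) (200 * ((q : ℝ) ^ i) ^ 2 * (q : ℝ) ^ (-(534 / 1000 * i : ℝ)))
    ((q : ℝ) ^ (-(5 / 10000 * i : ℝ))) (Real.rpow_pos_of_pos hq0 _) (by
      intro x hx
      refine (hRSH q i (l * u) hq (pw l u) (q ^ tt q (l * u) J) (by positivity)
        (OMp q m g t₁ l k wm J u) (yy q (J - l * u)) x hx).trans ?_
      exact mul_le_mul_of_nonneg_left hg (by positivity))
  refine ⟨E, hE1, ?_, hE3⟩
  have hi1 : t₁ < i := (mem_Ioc.1 hi).1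
  have hlow : 200 ≤ (q : ℝ) ^ (3 / 1000 * i : ℝ) := by
    refine hpar.low.trans ?_
    apply Real.rpow_le_rpow_of_exponent_le hq1
    have : (t₁ : ℝ) ≤ i := by exact_mod_cast hi1.le
    linarith
  have hK2 : (0 : ℝ) < ((q ^ i : ℕ) : ℝ) ^ 2 := by positivity
  rw [div_le_iff₀ hK2]
  have e1 : ((q : ℝ) ^ (-(5 / 10000 * i : ℝ))) ^ 2 = (q : ℝ) ^ (-(1 / 1000 * i : ℝ)) := by
    rw [← Real.rpow_natCast, ← Real.rpow_mul hq0.le]
    congr 1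
    push_cast
    ring
  rw [e1] at hE2
  have e2 : (((q ^ i : ℕ) : ℝ)) ^ (-(53 / 100 : ℝ)) = (q : ℝ) ^ (-(53 / 100 * i : ℝ)) := by
    rw [hKr, ← Real.rpow_mul hq0.le]
    congr 1
    ring
  rw [e2]
  have e3 : (0 : ℝ) < (q : ℝ) ^ (1 / 1000 * i : ℝ) := Real.rpow_pos_of_pos hq0 _
  have e4 : (q : ℝ) ^ (-(1 / 1000 * i : ℝ)) * (q : ℝ) ^ (1 / 1000 * i : ℝ) = 1 := by
    rw [← Real.rpow_add hq0]
    simp
  have e5 : (E.card : ℝ) ≤ 200 * ((q : ℝ) ^ i) ^ 2 * (q : ℝ) ^ (-(534 / 1000 * i : ℝ)) *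
      (q : ℝ) ^ (1 / 1000 * i : ℝ) := by
    have := mul_le_mul_of_nonneg_right hE2 e3.le
    rwa [mul_assoc, e4, mul_one] at this
  refine e5.trans ?_
  have e6 : (q : ℝ) ^ (-(534 / 1000 * i : ℝ)) * (q : ℝ) ^ (1 / 1000 * i : ℝ) *
      (q : ℝ) ^ (3 / 1000 * i : ℝ) = (q : ℝ) ^ (-(53 / 100 * i : ℝ)) := by
    rw [← Real.rpow_add hq0, ← Real.rpow_add hq0]
    congr 1
    ring
  rw [← e6]
  have e7 : (0 : ℝ) < (q : ℝ) ^ (-(534 / 1000 * i : ℝ)) := Real.rpow_pos_of_pos hq0 _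
  have e8 : (((q ^ i : ℕ) : ℝ)) = (q : ℝ) ^ i := by push_cast; rfl
  rw [e8]
  calc 200 * ((q : ℝ) ^ i) ^ 2 * (q : ℝ) ^ (-(534 / 1000 * i : ℝ)) * (q : ℝ) ^ (1 / 1000 * i : ℝ)
      = ((q : ℝ) ^ i) ^ 2 * ((q : ℝ) ^ (-(534 / 1000 * i : ℝ)) * (q : ℝ) ^ (1 / 1000 * i : ℝ)) * 200 := by
        ring
    _ ≤ ((q : ℝ) ^ i) ^ 2 * ((q : ℝ) ^ (-(534 / 1000 * i : ℝ)) * (q : ℝ) ^ (1 / 1000 * i : ℝ)) *
        (q : ℝ) ^ (3 / 1000 * i : ℝ) := by gcongr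
    _ = _ := by ring

end Pool.Agent.H24.FD
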