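import Mathlib
import Pool.Agent.H24.FD.P4

/-! # MP_1f2761, k = 2: row DIG, decided levels of a kept block in its own base -/

set_option autoImplicit false

open Finset Pool.K2 Pool.FD MeasureTheory

namespace Pool.Agent.H24.FD

theorem dig_lt {q g o n : ℕ} (hgo : g ≤ o) (hn : n < q ^ o)
    (h : n % q ^ g ≠ q ^ g - 1) : n + 2 ≤ q ^ o := by
  by_contra hcon
  have h1 : n + 1 = q ^ o := by omega
  have h2 : q ^ g ∣ n + 1 := by
    rw [h1]
    exact pow_dvd_pow q hgo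
  have hg : 0 < q ^ g := by
    rcases Nat.eq_zero_or_pos (q ^ g) with h0 | h0
    · rw [h0] at h2
      have := Nat.eq_zero_of_zero_dvd h2
      omega
    · exact h0
  have h3 : n % q ^ g < q ^ g := Nat.mod_lt _ hg
  have h4 : q ^ g ∣ n % q ^ g + 1 := by
    have h5 : n + 1 = q ^ g * (n / q ^ g) + (n % q ^ g + 1) := by
      have := Nat.div_add_mod n (q ^ g)
      omega
    rw [h5] at h2
    exact (Nat.dvd_add_right (Dvd.intro _ rfl)).1 h2
  have h6 := Nat.le_of_dvd (Nat.succ_pos _) h4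
  omega

theorem dig : DIGStmt := by
  intro q m g t J' o j x' V A hq hg hgo hjm hj hot hV hA hVg hAg hlt
  have hq0 : 0 < q := by omega
  obtain ⟨I, hI⟩ : ∃ I, I = II q J' := ⟨_, rfl⟩
  have h2J : 2 ^ J' ≤ q ^ I := by
    rw [hI]
    exact Nat.le_pow_clog (by omega) _
  rw [← hI] at hV hA ⊢
  obtain ⟨X, hX⟩ : ∃ X, X = x'.1 * 2 ^ J' := ⟨_, rfl⟩
  obtain ⟨Y, hY⟩ : ∃ Y, Y = x'.2 * 2 ^ J' := ⟨_, rfl⟩
  rw [← hX] at hV
  rw [← hY] at hA
  have hdt : q ^ (o + j) ∣ q ^ t := pow_dvd_pow q (by omega)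
  have hv : X / q ^ I % q ^ (o + j) = V % q ^ (o + j) := by
    rw [hV, Nat.mod_mod_of_dvd _ hdt]
  have ha : Y / q ^ I % q ^ (o + j) = A % q ^ (o + j) := by
    rw [hA, Nat.mod_mod_of_dvd _ hdt]
  have hpow : q ^ (I + o + j) = q ^ I * q ^ (o + j) := by
    rw [← pow_add]
    congr 1
    ring
  have hXm : X % q ^ (I + o + j) = X % q ^ I + q ^ I * (V % q ^ (o + j)) := by
    rw [hpow, Nat.mod_mul, hv]
  have hYm : Y % q ^ (I + o + j) = Y % q ^ I + q ^ I * (A % q ^ (o + j)) := by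
    rw [hpow, Nat.mod_mul, ha]
  have hqI : 0 < q ^ I := by positivity
  have hqo : 0 < q ^ o := by positivity
  have hXI : X % q ^ I < q ^ I := Nat.mod_lt _ hqI
  have hYI : Y % q ^ I < q ^ I := Nat.mod_lt _ hqI
  -- splitting of the two digit strings
  have hVs : V % q ^ (o + j) = V % q ^ o + q ^ o * (V / q ^ o % q ^ j) := by
    rw [pow_add, Nat.mod_mul]
  have hAs : A % q ^ (o + j) = A % q ^ o + q ^ o * (A / q ^ o % q ^ j) := by
    rw [pow_add, Nat.mod_mul]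
  have hdm : q ^ j ∣ q ^ m := pow_dvd_pow q hjm
  rw [Nat.mod_mod_of_dvd _ hdm, Nat.mod_mod_of_dvd _ hdm] at hlt
  have hV0 : V % q ^ o + 2 ≤ q ^ o := by
    apply dig_lt hgo (Nat.mod_lt _ hqo)
    rwa [Nat.mod_mod_of_dvd _ (pow_dvd_pow q hgo)]
  have hA0 : A % q ^ (o + j) + 2 ≤ q ^ (o + j) := by
    apply dig_lt (show g ≤ o + j by omega) (Nat.mod_lt _ (by positivity))
    rwa [Nat.mod_mod_of_dvd _ (pow_dvd_pow q (show g ≤ o + j by omega))]
  have hVA : V % q ^ (o + j) + 2 ≤ A % q ^ (o + j) := by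
    have h1 : q ^ o * (V / q ^ o % q ^ j + 1) ≤ q ^ o * (A / q ^ o % q ^ j) :=
      Nat.mul_le_mul_left _ hlt
    rw [hVs, hAs]
    rw [mul_add, mul_one] at h1
    calc V % q ^ o + q ^ o * (V / q ^ o % q ^ j) + 2
        = (V % q ^ o + 2) + q ^ o * (V / q ^ o % q ^ j) := by ring
      _ ≤ q ^ o + q ^ o * (V / q ^ o % q ^ j) := Nat.add_le_add_right hV0 _
      _ = q ^ o * (V / q ^ o % q ^ j) + q ^ o := by ring
      _ ≤ q ^ o * (A / q ^ o % q ^ j) := h1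
      _ ≤ A % q ^ o + q ^ o * (A / q ^ o % q ^ j) := Nat.le_add_left _ _
  unfold Sure
  rw [← hX, ← hY, hXm, hYm]
  have e1 : q ^ I * (V % q ^ (o + j) + 2) ≤ q ^ I * (A % q ^ (o + j)) := Nat.mul_le_mul_left _ hVA
  have e2 : q ^ I * (A % q ^ (o + j) + 2) ≤ q ^ I * q ^ (o + j) := Nat.mul_le_mul_left _ hA0
  rw [mul_add] at e1 e2
  rw [hpow]
  constructor
  · calc X % q ^ I + q ^ I * (V % q ^ (o + j)) + 2 ^ J'
        ≤ q ^ I + q ^ I * (V % q ^ (o + j)) + q ^ I :=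
          Nat.add_le_add (Nat.add_le_add_right hXI.le _) h2J
      _ = q ^ I * (V % q ^ (o + j)) + q ^ I * 2 := by ring
      _ ≤ q ^ I * (A % q ^ (o + j)) := e1
      _ ≤ Y % q ^ I + q ^ I * (A % q ^ (o + j)) := Nat.le_add_left _ _
  · calc Y % q ^ I + q ^ I * (A % q ^ (o + j)) + 2 ^ J'
        ≤ q ^ I + q ^ I * (A % q ^ (o + j)) + q ^ I :=
          Nat.add_le_add (Nat.add_le_add_right hYI.le _) h2J
      _ = q ^ I * (A % q ^ (o + j)) + q ^ I * 2 := by ring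
      _ ≤ q ^ I * q ^ (o + j) := e2

end Pool.Agent.H24.FD
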